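import Pool.Agent.H85.TU.Targets2

/-!
# Row QFT of tum_modules (helper32): formulas without quantifiers are conditions on types
-/

set_option autoImplicit false

open Set

namespace Pool.Agent.H32.TU

open Pool.Agent.H85.TU

theorem pf_QFT : T_QFT := by
  intro C _ φ
  induction φ with
  | label i B hB w =>
    intro _
    refine ⟨?_, fun y v => ?_⟩
    · have h1 : Measurable fun t : TB C 3 => t.1 () w :=
        (measurable_pi_apply w).comp ((measurable_pi_apply ()).comp measurable_fst)
      exact h1 hB
    · exact Iff.rfl
  | equal a b =>
    intro _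
    refine ⟨?_, fun y v => ?_⟩
    · have h1 : Measurable fun t : TB C 3 => t.2 a b :=
        (measurable_pi_apply b).comp ((measurable_pi_apply a).comp measurable_snd)
      exact h1 (measurableSet_singleton true)
    · simp [Holds, HT, tp]
  | not φ ih =>
    intro h
    obtain ⟨h1, h2⟩ := ih h
    refine ⟨h1.compl, fun y v => ?_⟩
    exact not_congr (h2 y v)
  | conj φ ih =>
    intro h
    refine ⟨?_, fun y v => ?_⟩
    · have h1 : {t : TB C 3 | HT t (.conj φ)} = ⋂ n, {t : TB C 3 | HT t (φ n)} := by
        ext t
        simp [HT]
      rw [h1]
      exact MeasurableSet.iInter fun n => (ih n (h n)).1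
    · exact forall_congr' fun n => (ih n (h n)).2 y v
  | ex a φ ih => intro h; exact h.elim
  | atLeast k a φ ih => intro h; exact h.elim

end Pool.Agent.H32.TU
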